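import Pool.Agent.Y113.MT.CStm
import Mathlib

set_option autoImplicit false

/-! # Coordinates of the coloured tensors of Hodge type `P` (pattern: `Pool.Agent.Y419.MT.Tb`) -/

open Matrix

namespace Pool.Agent.Y455.MT

open Pool.Agent.Y113.MT

section
variable {F : Type} [Field F] {k n N r : ℕ} (c : Fin r → Fin k)

theorem ctr_zero (R : Fin k → Matrix (Fin n) (Fin n) F) (J : Fin r → Fin n) :
    ctr c R (0 : (Fin r → Fin n) → Fin N → F) J = 0 := by
  unfold ctr
  simp

theorem ctr_add (R : Fin k → Matrix (Fin n) (Fin n) F) (T T' : (Fin r → Fin n) → Fin N → F)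
    (J : Fin r → Fin n) : ctr c R (T + T') J = ctr c R T J + ctr c R T' J := by
  unfold ctr
  simp only [Pi.add_apply, smul_add]
  rw [Finset.sum_add_distrib]

theorem ctr_smul (R : Fin k → Matrix (Fin n) (Fin n) F) (x : F) (T : (Fin r → Fin n) → Fin N → F)
    (J : Fin r → Fin n) : ctr c R (x • T) J = x • ctr c R T J := by
  unfold ctr
  rw [Finset.smul_sum]
  refine Finset.sum_congr rfl fun I _ => ?_
  rw [Pi.smul_apply, smul_comm]

theorem ctr_dec (R : Fin k → Matrix (Fin n) (Fin n) F) (v : Fin r → Fin n → F) (z : Fin N → F)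
    (J : Fin r → Fin n) :
    ctr c R (fun J i => (∏ a, v a (J a)) * z i) J = (∏ a, (v a ᵥ* R (c a)) (J a)) • z := by
  funext i
  have h1 : (∏ a, (v a ᵥ* R (c a)) (J a)) =
      ∑ I : Fin r → Fin n, ∏ a, (v a (I a) * R (c a) (I a) (J a)) := by
    have h2 : ∀ a, (v a ᵥ* R (c a)) (J a) = ∑ j, v a j * R (c a) j (J a) := fun a => rfl
    simp only [h2]
    rw [Finset.prod_univ_sum, Fintype.piFinset_univ]
  unfold ctr
  rw [Finset.sum_apply, Pi.smul_apply, h1, smul_eq_mul, Finset.sum_mul]
  refine Finset.sum_congr rfl fun I _ => ?_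
  rw [Pi.smul_apply, smul_eq_mul, Finset.prod_mul_distrib]
  ring

end

theorem tbc : S_TBC := by
  intro m k N r c B H U P T hH hT I
  refine Submodule.span_induction (p := fun T _ => ctr c (fun i => (B i)⁻¹) T I ∈
    U (P - ∑ a, ((2 * m - 1 - (I a : ℕ) : ℕ) : ℤ))) ?_ ?_ ?_ ?_ hT
  · rintro f ⟨p0, z, p, v, hz, hv, hP, rfl⟩
    rw [ctr_dec]
    by_cases hI : ∀ a, (I a : ℕ) = 2 * m - 1 - p a
    · have e : P - ∑ a, ((2 * m - 1 - (I a : ℕ) : ℕ) : ℤ) = p0 := by
        have e1 : ∀ a, (2 * m - 1 - (I a : ℕ) : ℕ) = p a := by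
          intro a
          have h1 := hI a
          have h2 := (hv a).1
          omega
        simp only [e1]
        linarith
      rw [e]
      exact (U p0).smul_mem _ hz
    · push Not at hI
      obtain ⟨a, ha⟩ := hI
      rw [Finset.prod_eq_zero (Finset.mem_univ a)
        (hH (c a) (p a) (hv a).1 (v a) (hv a).2 (I a) ha), zero_smul]
      exact Submodule.zero_mem _
  · rw [ctr_zero]
    exact Submodule.zero_mem _
  · intro x y _ _ hx hy
    rw [ctr_add]
    exact Submodule.add_mem _ hx hy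
  · intro x y _ hx
    rw [ctr_smul]
    exact Submodule.smul_mem _ _ hx

end Pool.Agent.Y455.MT
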